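import Pool.Agent.Helper20.Mono.Goals

/-!
# Lattice indices (packet I1)

`Mono.idxPos`, `Mono.idxWall`, `Mono.idxBdry`, and the chain lemma
`Mono.Idx91.idx_insert_mul`.  Other useful facts (namespace `Mono.Idx91`): integer points of the
real span lie in `sat` (`mem_sat_of_real`), separation by integral forms
(`exists_dot_of_notMem_sat`), dimension count in coordinate subspaces (`indep_card_le`,
`indep_exists_real`, `indep_mem_sat`).
-/

namespace Mono.Idx91

open Finset

variable {n : ℕ}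

theorem closure_le_sat (B : Set (Fin n → ℤ)) : AddSubgroup.closure B ≤ sat B :=
  fun x hx => ⟨1, one_ne_zero, by simpa using hx⟩

theorem subset_sat (B : Set (Fin n → ℤ)) {x : Fin n → ℤ} (hx : x ∈ B) : x ∈ sat B :=
  closure_le_sat B (AddSubgroup.subset_closure hx)

theorem mem_sat_iff (B : Set (Fin n → ℤ)) (x : Fin n → ℤ) :
    x ∈ sat B ↔ ∃ k : ℤ, k ≠ 0 ∧ k • x ∈ AddSubgroup.closure B := Iff.rfl

theorem mem_sat_of_zsmul {B : Set (Fin n → ℤ)} {x : Fin n → ℤ} {k : ℤ} (hk : k ≠ 0)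
    (h : k • x ∈ sat B) : x ∈ sat B := by
  obtain ⟨l, hl, h⟩ := h
  exact ⟨l * k, mul_ne_zero hl hk, by rwa [mul_smul]⟩

theorem sat_le {B C : Set (Fin n → ℤ)} (h : ∀ x ∈ B, x ∈ sat C) : sat B ≤ sat C := by
  have h1 : AddSubgroup.closure B ≤ sat C := (AddSubgroup.closure_le _).2 h
  rintro x ⟨k, hk, hx⟩
  exact mem_sat_of_zsmul hk (h1 hx)

theorem _root_.Mono.idxPos : IdxPos := by
  intro n B
  unfold idx AddSubgroup.relIndex
  have hfin : Finite (sat B ⧸ (AddSubgroup.closure B).addSubgroupOf (sat B)) := by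
    have h1 : Module.Finite ℤ (sat B) := by
      have : Module.Finite ℤ (AddSubgroup.toIntSubmodule (sat B)) := inferInstance
      exact this
    have h2 : Module.Finite ℤ (sat B ⧸ (AddSubgroup.closure B).addSubgroupOf (sat B)) := by
      refine Module.Finite.of_surjective
        (QuotientAddGroup.mk' ((AddSubgroup.closure B).addSubgroupOf (sat B))).toIntLinearMap ?_
      exact QuotientAddGroup.mk'_surjective _
    have h3 := Module.Finite.iff_addGroup_fg.1 h2
    refine AddCommGroup.finite_of_fg_isAddTorsion _ ?_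
    intro x
    obtain ⟨⟨x, hx⟩, rfl⟩ := QuotientAddGroup.mk_surjective x
    obtain ⟨k, hk, hx'⟩ := hx
    rw [isOfFinAddOrder_iff_zsmul_eq_zero]
    refine ⟨k, hk, ?_⟩
    rw [← QuotientAddGroup.mk_zsmul, QuotientAddGroup.eq_zero_iff, AddSubgroup.mem_addSubgroupOf]
    exact hx'
  exact AddSubgroup.index_ne_zero_of_finite

/-- Multiplicativity of the index along a homomorphism. -/
theorem relIndex_chain (N M : AddSubgroup (Fin n → ℤ)) (h : N ≤ M) (k : (Fin n → ℤ) →+ ℤ) :
    N.relIndex M = (N ⊓ k.ker).relIndex (M ⊓ k.ker) * (N.map k).relIndex (M.map k) := by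
  have h1 : N ≤ N ⊔ (M ⊓ k.ker) := le_sup_left
  have h2 : N ⊔ (M ⊓ k.ker) ≤ M := sup_le h inf_le_left
  rw [← AddSubgroup.relIndex_mul_relIndex _ _ _ h1 h2]
  congr 1
  · rw [AddSubgroup.relIndex_sup_left, ← AddSubgroup.inf_relIndex_right]
    congr 1
    ext x
    simp only [AddSubgroup.mem_inf]
    constructor
    · rintro ⟨hN, hM, hk⟩
      exact ⟨hN, hk⟩
    · rintro ⟨hN, hk⟩
      exact ⟨hN, h hN, hk⟩
  · rw [AddSubgroup.relIndex_map_map]
    have h3 : M ⊔ k.ker = M ⊔ (N ⊔ k.ker) := by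
      rw [← sup_assoc, sup_eq_left.2 h]
    rw [h3, AddSubgroup.relIndex_sup_right, ← AddSubgroup.inf_relIndex_right (N ⊔ k.ker) M,
      sup_inf_assoc_of_le k.ker h, inf_comm k.ker M]

/-- The homomorphism given by an integer vector. -/
def dotHom (k : Fin n → ℤ) : (Fin n → ℤ) →+ ℤ where
  toFun x := k ⬝ᵥ x
  map_zero' := dotProduct_zero k
  map_add' x y := dotProduct_add k x y

@[simp] theorem dotHom_apply (k x : Fin n → ℤ) : dotHom k x = k ⬝ᵥ x := rfl

theorem closure_le_ker {B : Set (Fin n → ℤ)} {k : (Fin n → ℤ) →+ ℤ} (hB : ∀ v ∈ B, k v = 0) :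
    AddSubgroup.closure B ≤ k.ker := by
  rw [AddSubgroup.closure_le]
  intro v hv
  exact hB v hv

theorem mem_closure_insert {B : Set (Fin n → ℤ)} {u x : Fin n → ℤ} :
    x ∈ AddSubgroup.closure (insert u B) ↔
      ∃ m : ℤ, ∃ b ∈ AddSubgroup.closure B, x = m • u + b := by
  rw [Set.insert_eq, AddSubgroup.closure_union, AddSubgroup.mem_sup]
  constructor
  · rintro ⟨y, hy, z, hz, rfl⟩
    rw [AddSubgroup.mem_closure_singleton] at hy
    obtain ⟨m, rfl⟩ := hy
    exact ⟨m, z, hz, rfl⟩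
  · rintro ⟨m, b, hb, rfl⟩
    exact ⟨m • u, AddSubgroup.mem_closure_singleton.2 ⟨m, rfl⟩, b, hb, rfl⟩

/-- The chain lemma: if `k` vanishes on `B`, does not vanish at `u`, and maps the saturated
lattice of `insert u B` onto `g ℤ`, then `idx (insert u B) * g = idx B * |k u|`. -/
theorem idx_insert_mul {B : Set (Fin n → ℤ)} {u : Fin n → ℤ} (k : (Fin n → ℤ) →+ ℤ)
    (hB : ∀ v ∈ B, k v = 0) (hu : k u ≠ 0) (g : ℕ)
    (hM : (sat (insert u B)).map k = AddSubgroup.zmultiples (g : ℤ)) :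
    idx (insert u B) * g = idx B * (k u).natAbs := by
  have hg : g ≠ 0 := by
    rintro rfl
    have h1 : k u ∈ (sat (insert u B)).map k :=
      ⟨u, subset_sat _ (Set.mem_insert u B), rfl⟩
    rw [hM] at h1
    simp at h1
    exact hu h1
  unfold idx
  rw [relIndex_chain _ _ (closure_le_sat _) k]
  have e1 : AddSubgroup.closure (insert u B) ⊓ k.ker = AddSubgroup.closure B := by
    ext x
    rw [AddSubgroup.mem_inf, mem_closure_insert]
    constructor
    · rintro ⟨⟨m, b, hb, rfl⟩, hk⟩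
      have hb0 : k b = 0 := closure_le_ker hB hb
      rw [AddMonoidHom.mem_ker, map_add, hb0, add_zero, map_zsmul, smul_eq_mul] at hk
      rcases mul_eq_zero.1 hk with h | h
      · rw [h]; simpa using hb
      · exact absurd h hu
    · intro hx
      exact ⟨⟨0, x, hx, by simp⟩, closure_le_ker hB hx⟩
  have e2 : sat (insert u B) ⊓ k.ker = sat B := by
    ext x
    rw [AddSubgroup.mem_inf]
    constructor
    · rintro ⟨⟨m, hm, hx⟩, hk⟩
      refine ⟨m, hm, ?_⟩
      rw [← e1]
      refine ⟨hx, ?_⟩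
      have hk' : k x = 0 := hk
      change k (m • x) = 0
      rw [map_zsmul, hk', smul_zero]
    · rintro ⟨m, hm, hx⟩
      refine ⟨⟨m, hm, AddSubgroup.closure_mono (Set.subset_insert u B) hx⟩, ?_⟩
      have h1 : k (m • x) = 0 := closure_le_ker hB hx
      rw [map_zsmul, smul_eq_mul] at h1
      exact (mul_eq_zero.1 h1).resolve_left hm
  have e3 : (AddSubgroup.closure (insert u B)).map k = AddSubgroup.zmultiples (k u) := by
    ext y
    rw [AddSubgroup.mem_map]
    constructor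
    · rintro ⟨x, hx, rfl⟩
      obtain ⟨m, b, hb, rfl⟩ := mem_closure_insert.1 hx
      have hb0 : k b = 0 := closure_le_ker hB hb
      rw [map_add, hb0, add_zero, map_zsmul]
      exact AddSubgroup.zsmul_mem _ (AddSubgroup.mem_zmultiples _) m
    · intro hy
      obtain ⟨m, rfl⟩ := AddSubgroup.mem_zmultiples_iff.1 hy
      exact ⟨m • u, mem_closure_insert.2 ⟨m, 0, AddSubgroup.zero_mem _, by simp⟩, map_zsmul k m u⟩
  rw [e1, e2, e3, hM]
  have h4 : k u ∈ AddSubgroup.zmultiples (g : ℤ) := by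
    rw [← hM]
    exact ⟨u, subset_sat _ (Set.mem_insert u B), rfl⟩
  have h5 := AddSubgroup.relIndex_mul_relIndex (AddSubgroup.zmultiples (k u))
    (AddSubgroup.zmultiples (g : ℤ)) ⊤ (by
      rw [AddSubgroup.zmultiples_le]
      exact h4) le_top
  rw [AddSubgroup.relIndex_top_right, AddSubgroup.relIndex_top_right, Int.index_zmultiples,
    Int.index_zmultiples] at h5
  rw [mul_assoc]
  congr 1

/-- Separation: an integer vector outside of `sat B` is separated from `B` by an integral linear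
form. -/
theorem exists_dot_of_notMem_sat {B : Set (Fin n → ℤ)} {x : Fin n → ℤ} (hx : x ∉ sat B) :
    ∃ k : Fin n → ℤ, (∀ v ∈ B, k ⬝ᵥ v = 0) ∧ k ⬝ᵥ x ≠ 0 := by
  classical
  set ι : (Fin n → ℤ) →+ (Fin n → ℚ) :=
    { toFun := fun v i => (v i : ℚ)
      map_zero' := by funext i; simp
      map_add' := by intro v w; funext i; simp } with hι
  have hιa : ∀ v i, ι v i = (v i : ℚ) := fun v i => rfl
  have hinj : Function.Injective ι := by
    intro v w h
    funext i
    have := congrFun h i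
    rw [hιa, hιa] at this
    exact_mod_cast this
  have hspan : ∀ y ∈ Submodule.span ℚ (ι '' B), ∃ m : ℤ, m ≠ 0 ∧
      ∃ b ∈ AddSubgroup.closure B, (m : ℚ) • y = ι b := by
    intro y hy
    induction hy using Submodule.span_induction with
    | mem y hy =>
      obtain ⟨b, hb, rfl⟩ := hy
      exact ⟨1, one_ne_zero, b, AddSubgroup.subset_closure hb, by simp⟩
    | zero => exact ⟨1, one_ne_zero, 0, AddSubgroup.zero_mem _, by simp⟩
    | add y z _ _ hy hz =>
      obtain ⟨m, hm, b, hb, hy⟩ := hy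
      obtain ⟨l, hl, c, hc, hz⟩ := hz
      refine ⟨m * l, mul_ne_zero hm hl, l • b + m • c,
        AddSubgroup.add_mem _ (AddSubgroup.zsmul_mem _ hb l) (AddSubgroup.zsmul_mem _ hc m), ?_⟩
      rw [map_add, map_zsmul, map_zsmul, ← hy, ← hz, smul_add]
      push_cast
      rw [← Int.cast_smul_eq_zsmul ℚ l, ← Int.cast_smul_eq_zsmul ℚ m, smul_smul, smul_smul,
        mul_comm (l : ℚ) m]
    | smul a y _ hy =>
      obtain ⟨m, hm, b, hb, hy⟩ := hy
      refine ⟨m * a.den, mul_ne_zero hm (by exact_mod_cast a.den_nz), a.num • b,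
        AddSubgroup.zsmul_mem _ hb _, ?_⟩
      rw [map_zsmul, ← hy, smul_smul, ← Int.cast_smul_eq_zsmul ℚ a.num, smul_smul]
      congr 1
      push_cast
      have : (a.den : ℚ) * a = a.num := by
        rw [mul_comm]; exact Rat.mul_den_eq_num a
      calc (m : ℚ) * a.den * a = m * (a.den * a) := by ring
        _ = a.num * m := by rw [this]; ring
  have hx' : ι x ∉ Submodule.span ℚ (ι '' B) := by
    intro h
    obtain ⟨m, hm, b, hb, h⟩ := hspan _ h
    apply hx
    refine ⟨m, hm, ?_⟩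
    have : m • x = b := by
      apply hinj
      rw [map_zsmul, ← h, ← Int.cast_smul_eq_zsmul ℚ m]
    rw [this]
    exact hb
  obtain ⟨f, hf, hf'⟩ := Submodule.exists_dual_map_eq_bot_of_notMem hx' inferInstance
  set q : Fin n → ℚ := fun i => f (Pi.single i 1) with hq
  set D : ℕ := ∏ i, (q i).den with hD
  have hD0 : D ≠ 0 := Finset.prod_ne_zero_iff.2 fun i _ => (q i).den_nz
  have hk : ∀ i, ∃ k : ℤ, (k : ℚ) = D * q i := by
    intro i
    have h1 : (q i).den ∣ D := Finset.dvd_prod_of_mem _ (Finset.mem_univ i)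
    obtain ⟨e, he⟩ := h1
    refine ⟨(q i).num * e, ?_⟩
    have h2 : q i * (q i).den = (q i).num := Rat.mul_den_eq_num (q i)
    rw [he]
    push_cast
    rw [← h2]
    ring
  choose k hk using hk
  have hfk : ∀ v : Fin n → ℤ, ((k ⬝ᵥ v : ℤ) : ℚ) = D * f (ι v) := by
    intro v
    have h1 : ι v = ∑ i, (v i : ℚ) • (Pi.single i (1 : ℚ) : Fin n → ℚ) := by
      funext j
      rw [Finset.sum_apply, Finset.sum_eq_single j]
      · simp [hιa]
      · intro i _ hij
        simp [Ne.symm hij]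
      · simp
    rw [h1, map_sum, Finset.mul_sum]
    unfold dotProduct
    push_cast
    refine Finset.sum_congr rfl fun i _ => ?_
    rw [hk i, map_smul, smul_eq_mul, hq]
    ring
  refine ⟨k, fun v hv => ?_, fun h => ?_⟩
  · have h1 : f (ι v) ∈ (Submodule.span ℚ (ι '' B)).map f :=
      ⟨ι v, Submodule.subset_span ⟨v, hv, rfl⟩, rfl⟩
    rw [hf', Submodule.mem_bot] at h1
    have h2 := hfk v
    rw [h1, mul_zero] at h2
    exact_mod_cast h2
  · have h2 := hfk x
    rw [h, Int.cast_zero] at h2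
    have h3 : (D : ℚ) ≠ 0 := by exact_mod_cast hD0
    exact hf ((mul_eq_zero.1 h2.symm).resolve_left h3)

theorem toR_dot (k v : Fin n → ℤ) : toR k ⬝ᵥ toR v = ((k ⬝ᵥ v : ℤ) : ℝ) := by
  unfold dotProduct
  push_cast
  rfl

/-- An integer vector in the real span of `B` lies in `sat B`. -/
theorem mem_sat_of_real {F : Finset (Fin n → ℤ)} {x : Fin n → ℤ} (c : (Fin n → ℤ) → ℝ)
    (hx : toR x = ∑ v ∈ F, c v • toR v) : x ∈ sat (F : Set (Fin n → ℤ)) := by
  by_contra h
  obtain ⟨k, hk, hk'⟩ := exists_dot_of_notMem_sat h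
  apply hk'
  have h1 : toR k ⬝ᵥ toR x = 0 := by
    rw [hx, dotProduct_sum]
    refine Finset.sum_eq_zero fun v hv => ?_
    rw [dotProduct_smul, toR_dot, hk v hv]
    simp
  rw [toR_dot] at h1
  exact_mod_cast h1

theorem exists_real_of_mem_closure {F : Finset (Fin n → ℤ)} {x : Fin n → ℤ}
    (hx : x ∈ AddSubgroup.closure (F : Set (Fin n → ℤ))) :
    ∃ c : (Fin n → ℤ) → ℝ, toR x = ∑ v ∈ F, c v • toR v := by
  classical
  induction hx using AddSubgroup.closure_induction with
  | mem x hx =>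
    refine ⟨fun v => if v = x then 1 else 0, ?_⟩
    have : x ∈ F := hx
    simp [this]
  | zero => exact ⟨0, by simp [toR_zero]⟩
  | add x y _ _ hx hy =>
    obtain ⟨c, hx⟩ := hx
    obtain ⟨d, hy⟩ := hy
    refine ⟨fun v => c v + d v, ?_⟩
    rw [toR_add, hx, hy, ← Finset.sum_add_distrib]
    exact Finset.sum_congr rfl fun v _ => (add_smul _ _ _).symm
  | neg x _ hx =>
    obtain ⟨c, hx⟩ := hx
    refine ⟨fun v => - c v, ?_⟩
    have : toR (-x) = - toR x := by funext i; simp
    rw [this, hx, ← Finset.sum_neg_distrib]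
    exact Finset.sum_congr rfl fun v _ => (neg_smul _ _).symm

theorem toR_zsmul (m : ℤ) (x : Fin n → ℤ) : toR (m • x) = (m : ℝ) • toR x := by
  funext i; simp

/-- Points of `sat F` are the integer points of the real span. -/
theorem exists_real_of_mem_sat {F : Finset (Fin n → ℤ)} {x : Fin n → ℤ}
    (hx : x ∈ sat (F : Set (Fin n → ℤ))) :
    ∃ c : (Fin n → ℤ) → ℝ, toR x = ∑ v ∈ F, c v • toR v := by
  obtain ⟨m, hm, hx⟩ := hx
  obtain ⟨c, hc⟩ := exists_real_of_mem_closure hx
  have hm' : (m : ℝ) ≠ 0 := by exact_mod_cast hm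
  refine ⟨fun v => (m : ℝ)⁻¹ * c v, ?_⟩
  rw [toR_zsmul] at hc
  have : toR x = (m : ℝ)⁻¹ • ((m : ℝ) • toR x) := by
    rw [smul_smul, inv_mul_cancel₀ hm', one_smul]
  rw [this, hc, Finset.smul_sum]
  exact Finset.sum_congr rfl fun v _ => by rw [smul_smul]

open Classical in
theorem indep_notMem_sat {ρ : Finset (Fin n → ℤ)} {u : Fin n → ℤ} (hu : u ∉ ρ)
    (h : Indep (insert u ρ)) : u ∉ sat (ρ : Set (Fin n → ℤ)) := by
  intro hs
  obtain ⟨c, hc⟩ := exists_real_of_mem_sat hs
  have h1 := h.sum_eq_zero (c := fun v => if v = u then 1 else - c v) (by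
    rw [Finset.sum_insert hu, if_pos rfl, one_smul, hc, ← Finset.sum_add_distrib]
    refine Finset.sum_eq_zero fun v hv => ?_
    have : v ≠ u := fun h => hu (h ▸ hv)
    rw [if_neg this, neg_smul, add_neg_cancel]) u (Finset.mem_insert_self u ρ)
  simp at h1

theorem exists_zmultiples (H : AddSubgroup ℤ) : ∃ g : ℕ, H = AddSubgroup.zmultiples (g : ℤ) := by
  obtain ⟨a, ha⟩ := Int.subgroup_cyclic H
  refine ⟨a.natAbs, ?_⟩
  rw [ha, ← AddSubgroup.zmultiples_eq_closure]
  simp

theorem _root_.Mono.idxWall : IdxWall := by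
  classical
  intro n ρ u u' hu hu' hI hI' a b c ha hb hab w hw
  obtain ⟨k, hk, hku⟩ := exists_dot_of_notMem_sat (indep_notMem_sat hu hI)
  -- the relation, applied to `k` and `w`
  have hrel : a * ((k ⬝ᵥ u : ℤ) : ℝ) + b * ((k ⬝ᵥ u' : ℤ) : ℝ) = 0 := by
    have h1 : toR k ⬝ᵥ (a • toR u + b • toR u') = 0 := by
      rw [hab, dotProduct_sum]
      refine Finset.sum_eq_zero fun v hv => ?_
      rw [dotProduct_smul, toR_dot, hk v hv]
      simp
    rw [dotProduct_add, dotProduct_smul, dotProduct_smul, toR_dot, toR_dot] at h1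
    simpa using h1
  have hrelw : a * (w ⬝ᵥ toR u) + b * (w ⬝ᵥ toR u') = 0 := by
    have h1 : w ⬝ᵥ (a • toR u + b • toR u') = 0 := by
      rw [hab, dotProduct_sum]
      refine Finset.sum_eq_zero fun v hv => ?_
      rw [dotProduct_smul, hw v hv]
      simp
    rw [dotProduct_add, dotProduct_smul, dotProduct_smul] at h1
    simpa using h1
  have hku' : k ⬝ᵥ u' ≠ 0 := by
    intro h
    rw [h] at hrel
    have : a * ((k ⬝ᵥ u : ℤ) : ℝ) = 0 := by simpa using hrel
    rcases mul_eq_zero.1 this with h | h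
    · exact ha.ne' h
    · exact hku (by exact_mod_cast h)
  -- the saturated lattices agree
  have hsat : ∀ (u u' : Fin n → ℤ) (a b : ℝ), u ∉ ρ → 0 < a → 0 < b →
      a • toR u + b • toR u' = ∑ v ∈ ρ, c v • toR v →
      sat ((insert u' ρ : Finset (Fin n → ℤ)) : Set (Fin n → ℤ)) ≤
        sat ((insert u ρ : Finset (Fin n → ℤ)) : Set (Fin n → ℤ)) := by
    intro u u' a b hu ha hb hab
    refine sat_le fun x hx => ?_
    rw [Finset.mem_coe, Finset.mem_insert] at hx
    rcases hx with rfl | hx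
    · refine mem_sat_of_real (fun v => if v = u then - (b⁻¹ * a) else b⁻¹ * c v) ?_
      rw [Finset.sum_insert hu, if_pos rfl]
      have h1 : ∑ v ∈ ρ, (if v = u then - (b⁻¹ * a) else b⁻¹ * c v) • toR v =
          b⁻¹ • ∑ v ∈ ρ, c v • toR v := by
        rw [Finset.smul_sum]
        refine Finset.sum_congr rfl fun v hv => ?_
        have : v ≠ u := fun h => hu (h ▸ hv)
        rw [if_neg this, smul_smul]
      rw [h1, ← hab, smul_add, smul_smul, smul_smul, inv_mul_cancel₀ hb.ne', one_smul, neg_smul]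
      abel
    · exact subset_sat _ (by simp [hx])
  have hsat1 : sat ((insert u' ρ : Finset (Fin n → ℤ)) : Set (Fin n → ℤ)) =
      sat ((insert u ρ : Finset (Fin n → ℤ)) : Set (Fin n → ℤ)) := by
    apply le_antisymm
    · exact hsat u u' a b hu ha hb hab
    · exact hsat u' u b a hu' hb ha (by rw [add_comm]; exact hab)
  obtain ⟨g, hg⟩ := exists_zmultiples
    ((sat ((insert u ρ : Finset (Fin n → ℤ)) : Set (Fin n → ℤ))).map (dotHom k))
  have hg0 : (g : ℝ) ≠ 0 := by
    intro h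
    have h0 : g = 0 := by exact_mod_cast h
    have h1 : dotHom k u ∈
        (sat ((insert u ρ : Finset (Fin n → ℤ)) : Set (Fin n → ℤ))).map (dotHom k) :=
      ⟨u, subset_sat _ (by simp), rfl⟩
    rw [hg, h0] at h1
    simp at h1
    exact hku h1
  have e1 := idx_insert_mul (B := (ρ : Set (Fin n → ℤ))) (u := u) (dotHom k)
    (fun v hv => hk v hv) hku g (by rw [← hg, Finset.coe_insert])
  have e2 := idx_insert_mul (B := (ρ : Set (Fin n → ℤ))) (u := u') (dotHom k)
    (fun v hv => hk v hv) hku' g (by rw [← hg, ← hsat1, Finset.coe_insert])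
  rw [← Finset.coe_insert, dotHom_apply] at e1 e2
  have e1' : (idx ((insert u ρ : Finset (Fin n → ℤ)) : Set (Fin n → ℤ)) : ℝ) * g =
      idx (ρ : Set (Fin n → ℤ)) * |((k ⬝ᵥ u : ℤ) : ℝ)| := by
    rw [← Int.cast_abs, ← Nat.cast_natAbs]
    exact_mod_cast e1
  have e2' : (idx ((insert u' ρ : Finset (Fin n → ℤ)) : Set (Fin n → ℤ)) : ℝ) * g =
      idx (ρ : Set (Fin n → ℤ)) * |((k ⬝ᵥ u' : ℤ) : ℝ)| := by
    rw [← Int.cast_abs, ← Nat.cast_natAbs]
    exact_mod_cast e2
  have hb' : b ≠ 0 := hb.ne'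
  have h1 : ((k ⬝ᵥ u' : ℤ) : ℝ) = - (a / b) * ((k ⬝ᵥ u : ℤ) : ℝ) := by
    field_simp
    linarith
  have h2 : w ⬝ᵥ toR u' = - (a / b) * (w ⬝ᵥ toR u) := by
    field_simp
    linarith
  have h3 : |((k ⬝ᵥ u' : ℤ) : ℝ)| = (a / b) * |((k ⬝ᵥ u : ℤ) : ℝ)| := by
    rw [h1, abs_mul, abs_neg, abs_of_pos (div_pos ha hb)]
  rw [h3] at e2'
  rw [h2]
  refine mul_right_cancel₀ hg0 ?_
  rw [zero_mul, add_mul, mul_assoc, mul_assoc, e1', e2']
  ring

/-- The coordinate subspace `ℝ^T`. -/
def suppSub (T : Finset (Fin n)) : Submodule ℝ (Fin n → ℝ) where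
  carrier := {x | ∀ j, j ∉ T → x j = 0}
  zero_mem' := fun j _ => rfl
  add_mem' := by
    intro x y hx hy j hj
    rw [Pi.add_apply, hx j hj, hy j hj, add_zero]
  smul_mem' := by
    intro a x hx j hj
    rw [Pi.smul_apply, hx j hj, smul_zero]

theorem finrank_suppSub_le (T : Finset (Fin n)) : Module.finrank ℝ (suppSub T) ≤ T.card := by
  let f : suppSub T →ₗ[ℝ] (T → ℝ) :=
    { toFun := fun x i => (x : Fin n → ℝ) i
      map_add' := fun x y => rfl
      map_smul' := fun a x => rfl }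
  have hf : Function.Injective f := by
    intro x y h
    apply Subtype.ext
    funext j
    by_cases hj : j ∈ T
    · exact congrFun h ⟨j, hj⟩
    · rw [x.2 j hj, y.2 j hj]
  have := LinearMap.finrank_le_finrank_of_injective hf
  simpa using this

theorem indep_span_le {F : Finset (Fin n → ℤ)} {T : Finset (Fin n)}
    (hF : ∀ v ∈ F, ∀ j, j ∉ T → v j = 0) :
    Submodule.span ℝ (Set.range (fun u : F => toR (u : Fin n → ℤ))) ≤ suppSub T := by
  rw [Submodule.span_le]
  rintro _ ⟨u, rfl⟩ j hj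
  change toR (u : Fin n → ℤ) j = 0
  rw [toR_apply, hF u.1 u.2 j hj, Int.cast_zero]

theorem indep_card_le {F : Finset (Fin n → ℤ)} (h : Indep F) {T : Finset (Fin n)}
    (hF : ∀ v ∈ F, ∀ j, j ∉ T → v j = 0) : F.card ≤ T.card := by
  have h1 := finrank_span_eq_card h
  rw [Fintype.card_coe] at h1
  rw [← h1]
  exact (Submodule.finrank_mono (indep_span_le hF)).trans (finrank_suppSub_le T)

/-- `|T|` independent vectors of `ℝ^T` span `ℝ^T`. -/
theorem indep_exists_real {F : Finset (Fin n → ℤ)} (h : Indep F) {T : Finset (Fin n)}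
    (hF : ∀ v ∈ F, ∀ j, j ∉ T → v j = 0) (hc : F.card = T.card) {x : Fin n → ℝ}
    (hx : ∀ j, j ∉ T → x j = 0) : ∃ c : (Fin n → ℤ) → ℝ, x = ∑ v ∈ F, c v • toR v := by
  have h1 := finrank_span_eq_card h
  rw [Fintype.card_coe] at h1
  have h2 : Submodule.span ℝ (Set.range (fun u : F => toR (u : Fin n → ℤ))) = suppSub T :=
    Submodule.eq_of_le_of_finrank_le (indep_span_le hF)
      ((finrank_suppSub_le T).trans (by rw [h1, hc]))
  have h3 : x ∈ Submodule.span ℝ (Set.range (fun u : F => toR (u : Fin n → ℤ))) := by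
    rw [h2]; exact hx
  rw [Submodule.mem_span_range_iff_exists_fun] at h3
  obtain ⟨c, hc⟩ := h3
  classical
  refine ⟨fun v => if hv : v ∈ F then c ⟨v, hv⟩ else 0, ?_⟩
  rw [← hc, ← Finset.sum_coe_sort F]
  refine Finset.sum_congr rfl fun v _ => ?_
  simp

/-- Integer points of `ℝ^T` lie in the saturation of `|T|` independent vectors of `ℤ^T`. -/
theorem indep_mem_sat {F : Finset (Fin n → ℤ)} (h : Indep F) {T : Finset (Fin n)}
    (hF : ∀ v ∈ F, ∀ j, j ∉ T → v j = 0) (hc : F.card = T.card) {x : Fin n → ℤ}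
    (hx : ∀ j, j ∉ T → x j = 0) : x ∈ sat (F : Set (Fin n → ℤ)) := by
  obtain ⟨c, hc⟩ := indep_exists_real h hF hc (x := toR x)
    (fun j hj => by rw [toR_apply, hx j hj, Int.cast_zero])
  exact mem_sat_of_real c hc

theorem _root_.Mono.idxBdry : IdxBdry := by
  classical
  intro n T i ρ u hi hcard hu hI hρ hT
  have hF : ∀ v ∈ insert u ρ, ∀ j, j ∉ T → v j = 0 := by
    intro v hv j hj
    rcases Finset.mem_insert.1 hv with rfl | hv
    · exact hT j hj
    · exact hρ v hv j (fun h => hj (Finset.mem_of_mem_erase h))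
  have hc : (insert u ρ).card = T.card := by
    rw [Finset.card_insert_of_notMem hu, hcard]
  have hui : u i ≠ 0 := by
    intro h0
    have h1 : (insert u ρ).card ≤ (T.erase i).card := by
      refine indep_card_le hI ?_
      intro v hv j hj
      rcases Finset.mem_insert.1 hv with rfl | hv
      · by_cases hji : j = i
        · rw [hji, h0]
        · exact hT j (fun h => hj (Finset.mem_erase.2 ⟨hji, h⟩))
      · exact hρ v hv j hj
    rw [hc, Finset.card_erase_of_mem hi] at h1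
    have : 0 < T.card := Finset.card_pos.2 ⟨i, hi⟩
    omega
  have hk : ∀ x : Fin n → ℤ, dotHom (Pi.single i 1) x = x i := by
    intro x
    rw [dotHom_apply, single_one_dotProduct]
  have hM : (sat (insert u (ρ : Set (Fin n → ℤ)))).map (dotHom (Pi.single i 1)) =
      AddSubgroup.zmultiples ((1 : ℕ) : ℤ) := by
    rw [Nat.cast_one]
    have h1 : (Pi.single i 1 : Fin n → ℤ) ∈ sat (insert u (ρ : Set (Fin n → ℤ))) := by
      rw [← Finset.coe_insert]
      refine indep_mem_sat hI hF hc ?_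
      intro j hj
      have : j ≠ i := fun h => hj (h ▸ hi)
      simp [this]
    have h2 : (1 : ℤ) ∈
        (sat (insert u (ρ : Set (Fin n → ℤ)))).map (dotHom (Pi.single i 1)) :=
      ⟨_, h1, by rw [hk]; simp⟩
    have h3 : AddSubgroup.zmultiples (1 : ℤ) ≤
        (sat (insert u (ρ : Set (Fin n → ℤ)))).map (dotHom (Pi.single i 1)) := by
      rw [AddSubgroup.zmultiples_le]
      exact h2
    refine le_antisymm ?_ h3
    rw [Int.zmultiples_one]
    exact le_top
  have e := idx_insert_mul (B := (ρ : Set (Fin n → ℤ))) (u := u) (dotHom (Pi.single i 1))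
    (fun v hv => by rw [hk]; exact hρ v hv i (by simp)) (by rw [hk]; exact hui) 1 hM
  rw [← Finset.coe_insert, hk, mul_one] at e
  rw [e, Nat.cast_mul, Int.natCast_natAbs]

end Mono.Idx91
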